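import Mathlib
import Pool.Agent.TH350.RC.WZ

set_option autoImplicit false

/-! # A zero estimate at two points, and a parity lemma -/

namespace Pool.Agent.T9h29.NR

open Polynomial Finset Pool.Agent.TH350.WZ

variable {F : Type*} [Field F]

lemma dvd_dl_X (M : ℕ) (f : F[X]) (h : X ^ M ∣ f) : X ^ M ∣ dl f := by
  obtain ⟨g, rfl⟩ := h
  rcases Nat.eq_zero_or_pos M with rfl | hM
  · simp
  · unfold dl
    rw [derivative_mul, derivative_X_pow]
    have e : (X : F[X]) ^ M = X ^ (M - 1) * X := by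
      rw [← pow_succ]; congr 1; omega
    refine ⟨(X + 1) * (C (M : F) * g + X * derivative g), ?_⟩
    rw [e]
    ring

lemma dvd_dl_iter_X (M : ℕ) (f : F[X]) (h : X ^ M ∣ f) (i : ℕ) : X ^ M ∣ dl^[i] f := by
  induction i with
  | zero => exact h
  | succ i ih => rw [Function.iterate_succ_apply']; exact dvd_dl_X M _ ih

lemma cop : IsCoprime (X : F[X]) (X + 1) := ⟨-1, 1, by ring⟩

theorem zest2_li (p : ℕ) [Fact p.Prime] [CharP F p] (N : ℕ) (s : Fin N → ℕ × ℕ)
    (hs : ∀ j, (s j).1 + (s j).2 < p) (hli : LinearIndependent F (fun j => (ph (s j) : F[X])))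
    (c : Fin N → F) (E A : ℕ) (hE : X ^ E ∣ ∑ j, C (c j) * (ph (s j) : F[X]))
    (hA : (X + 1) ^ A ∣ ∑ j, C (c j) * (ph (s j) : F[X])) (j0 j1 : Fin N)
    (hc0 : c j0 ≠ 0) (hj0 : (s j0).1 = 0) (hc1 : c j1 ≠ 0) (hj1 : (s j1).2 = 0) :
    2 * (E + A) ≤ N * (N - 1) := by
  classical
  set G : Matrix (Fin N) (Fin N) F[X] := Matrix.of fun i j : Fin N => (Gs (s j) (i : ℕ) : F[X]) with hG
  have hphd : ∀ j, (ph (s j) : F[X]).natDegree < p := by
    intro j
    unfold ph
    have h1 := natDegree_mul_le (p := (X ^ (s j).1 : F[X])) (q := (X + 1) ^ (s j).2)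
    have h2 : (X ^ (s j).1 : F[X]).natDegree ≤ (s j).1 := natDegree_X_pow_le _
    have h3 : ((X + 1) ^ (s j).2 : F[X]).natDegree ≤ (s j).2 := by
      refine natDegree_pow_le.trans ?_
      have : (X + 1 : F[X]).natDegree ≤ 1 := by compute_degree
      nlinarith
    have := hs j
    omega
  have hdet : G.det ≠ 0 := by
    intro h0
    obtain ⟨u, hu0, hu⟩ := Matrix.exists_vecMul_eq_zero_iff.2 h0
    apply hu0
    refine nonvanish p N _ hli hphd u (fun j => ?_)
    have h1 := congrFun hu j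
    simp only [Matrix.vecMul, dotProduct, Pi.zero_apply, hG, Matrix.of_apply] at h1
    have h2 : ∑ i : Fin N, u i * dl^[(i : ℕ)] (ph (s j) : F[X]) =
        ph (s j) * ∑ i : Fin N, u i * Gs (s j) (i : ℕ) := by
      rw [Finset.mul_sum]
      refine Finset.sum_congr rfl (fun i _ => ?_)
      rw [dl_iter_ph]; ring
    rw [h2, h1, mul_zero]
  set f : F[X] := ∑ j, C (c j) * (ph (s j) : F[X]) with hf
  have hGm : G.mulVec (fun j => C (c j) * ph (s j)) = fun i : Fin N => dl^[(i : ℕ)] f := by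
    funext i
    rw [hf, dl_iter_sum]
    simp only [Matrix.mulVec, dotProduct, hG, Matrix.of_apply]
    refine Finset.sum_congr rfl (fun j _ => ?_)
    rw [dl_iter_C_mul, dl_iter_ph]; ring
  have hadj : G.det • (fun j => C (c j) * ph (s j)) = G.adjugate.mulVec (fun i : Fin N => dl^[(i : ℕ)] f) := by
    rw [← hGm, Matrix.mulVec_mulVec, Matrix.adjugate_mul, Matrix.smul_mulVec, Matrix.one_mulVec]
  have hCdet : ∀ a : F, a ≠ 0 → G.det = G.det * C a * C a⁻¹ := by
    intro a ha
    rw [mul_assoc, ← C_mul, mul_inv_cancel₀ ha, C_1, mul_one]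
  have hdvdX : X ^ E ∣ G.det := by
    have h1 := congrFun hadj j0
    simp only [Pi.smul_apply, smul_eq_mul, Matrix.mulVec, dotProduct] at h1
    have h2 : X ^ E ∣ G.det * (C (c j0) * ph (s j0)) := by
      rw [h1]
      refine Finset.dvd_sum (fun i _ => ?_)
      exact Dvd.dvd.mul_left (dvd_dl_iter_X E f hE _) _
    have h3 : (ph (s j0) : F[X]) = (X + 1) ^ (s j0).2 := by
      unfold ph; rw [hj0, pow_zero, one_mul]
    rw [h3, ← mul_assoc] at h2
    have h4 : X ^ E ∣ G.det * C (c j0) := (cop (F := F)).pow.dvd_of_dvd_mul_right h2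
    rw [hCdet _ hc0]
    exact Dvd.dvd.mul_right h4 _
  have hdvdX1 : (X + 1) ^ A ∣ G.det := by
    have h1 := congrFun hadj j1
    simp only [Pi.smul_apply, smul_eq_mul, Matrix.mulVec, dotProduct] at h1
    have h2 : (X + 1) ^ A ∣ G.det * (C (c j1) * ph (s j1)) := by
      rw [h1]
      refine Finset.dvd_sum (fun i _ => ?_)
      exact Dvd.dvd.mul_left (dvd_dl_iter A f hA _) _
    have h3 : (ph (s j1) : F[X]) = X ^ (s j1).1 := by
      unfold ph; rw [hj1, pow_zero, mul_one]
    rw [h3, ← mul_assoc] at h2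
    have h4 : (X + 1) ^ A ∣ G.det * C (c j1) := (cop (F := F)).symm.pow.dvd_of_dvd_mul_right h2
    rw [hCdet _ hc1]
    exact Dvd.dvd.mul_right h4 _
  have hdvd : X ^ E * (X + 1) ^ A ∣ G.det := (cop (F := F)).pow.mul_dvd hdvdX hdvdX1
  have h5 := natDegree_le_of_dvd hdvd hdet
  have h6 : (X ^ E * (X + 1 : F[X]) ^ A).natDegree = E + A := by
    have e : (X + 1 : F[X]) = X + C 1 := by simp
    rw [natDegree_mul (pow_ne_zero _ X_ne_zero) (pow_ne_zero _ (by rw [e]; exact X_add_C_ne_zero 1)),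
      natDegree_pow, natDegree_pow, natDegree_X, e, natDegree_X_add_C, mul_one, mul_one]
  rw [h6] at h5
  have h7 := natDegree_detG (F := F) N s
  rw [← hG] at h7
  omega

lemma poly_zero {p : ℕ} [Fact p.Prime] (P : (ZMod p)[X]) (hd : P.natDegree < p)
    (h : ∀ x : ZMod p, P.eval x = 0) : P = 0 := by
  refine Polynomial.eq_zero_of_natDegree_lt_card_of_eval_eq_zero P (f := fun x : ZMod p => x)
    (fun _ _ h => h) h ?_
  rw [ZMod.card]; exact hd

/-- a sparse polynomial which vanishes as a function -/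
lemma sparse_zero {p : ℕ} [Fact p.Prime] {ι : Type*} (T : Finset ι) (a : ι → ℕ) (g : ι → ZMod p)
    (ha : ∀ s ∈ T, a s < p) (hinj : Set.InjOn a T)
    (h : ∀ x : ZMod p, ∑ s ∈ T, g s * x ^ a s = 0) : ∀ s ∈ T, g s = 0 := by
  classical
  set P : (ZMod p)[X] := ∑ s ∈ T, C (g s) * X ^ a s with hP
  have hP0 : P = 0 := by
    apply poly_zero P
    · rcases T.eq_empty_or_nonempty with hT | hT
      · rw [hP, hT, sum_empty, natDegree_zero]
        exact (Fact.out : p.Prime).pos
      · apply lt_of_le_of_lt (b := p - 1)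
        · apply natDegree_sum_le_of_forall_le
          intro s hs
          have h1 : (C (g s) * X ^ a s : (ZMod p)[X]).natDegree ≤ a s := natDegree_C_mul_X_pow_le _ _
          have := ha s hs
          omega
        · have := (Fact.out : p.Prime).pos
          omega
    · intro x
      rw [hP, eval_finsetSum, ← h x]
      apply sum_congr rfl
      intro s _
      rw [eval_mul, eval_C, eval_pow, eval_X]
  intro s hs
  have h1 := congrArg (fun Q => Q.coeff (a s)) hP0
  simp only [hP, finsetSum_coeff, coeff_C_mul, coeff_X_pow, coeff_zero] at h1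
  rw [sum_eq_single s] at h1
  · simpa using h1
  · intro t ht hts
    rw [if_neg, mul_zero]
    intro h2
    exact hts (hinj ht hs h2.symm)
  · intro h2; exact absurd hs h2

/-- the parity lemma -/
lemma parity {p : ℕ} [hp : Fact p.Prime] (hp2 : p ≠ 2) {ι : Type*} (T : Finset ι) (e a : ι → ℕ)
    (g : ι → ZMod p)
    (hT : ∀ s ∈ T, (e s = 0 ∧ a s % 2 = 1 ∧ a s < p) ∨ (a s = 0 ∧ e s % 2 = 1 ∧ e s < p))
    (hinj : Set.InjOn (fun s => (e s, a s)) T)
    (h : ∀ x : ZMod p, ∑ s ∈ T, g s * (x ^ e s * (x + 1) ^ a s) = 0) : ∀ s ∈ T, g s = 0 := by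
  classical
  set TB := T.filter (fun s => e s = 0) with hTB
  set TC := T.filter (fun s => ¬ e s = 0) with hTC
  set Q1 : ZMod p → ZMod p := fun z => ∑ s ∈ TB, g s * z ^ a s with hQ1
  set Q2 : ZMod p → ZMod p := fun z => ∑ s ∈ TC, g s * z ^ e s with hQ2
  have hB : ∀ s ∈ TB, e s = 0 ∧ a s % 2 = 1 ∧ a s < p := by
    intro s hs
    rw [hTB, mem_filter] at hs
    rcases hT s hs.1 with h1 | h1
    · exact h1
    · have := h1.2.1; rw [hs.2] at this; omega
  have hC : ∀ s ∈ TC, a s = 0 ∧ e s % 2 = 1 ∧ e s < p := by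
    intro s hs
    rw [hTC, mem_filter] at hs
    rcases hT s hs.1 with h1 | h1
    · exact absurd h1.1 hs.2
    · exact h1
  have hrel : ∀ x, Q1 (x + 1) + Q2 x = 0 := by
    intro x
    rw [← h x, ← sum_filter_add_sum_filter_not T (fun s => e s = 0)]
    simp only [hQ1, hQ2]
    congr 1
    · apply sum_congr rfl
      intro s hs
      rw [(hB s hs).1, pow_zero, one_mul]
    · apply sum_congr rfl
      intro s hs
      rw [(hC s hs).1, pow_zero, mul_one]
  have hodd1 : ∀ z, Q1 (-z) = -Q1 z := by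
    intro z
    simp only [hQ1]
    rw [← sum_neg_distrib]
    apply sum_congr rfl
    intro s hs
    rw [(Nat.odd_iff.mpr (hB s hs).2.1).neg_pow]; ring
  have hodd2 : ∀ z, Q2 (-z) = -Q2 z := by
    intro z
    simp only [hQ2]
    rw [← sum_neg_distrib]
    apply sum_congr rfl
    intro s hs
    rw [(Nat.odd_iff.mpr (hC s hs).2.1).neg_pow]; ring
  have hper : ∀ x, Q1 (x + 2) = Q1 x := by
    intro x
    have h1 := hrel (x + 1)
    have h2 := hrel (-(x + 1))
    rw [hodd2] at h2
    have h3 : -(x + 1) + 1 = -x := by ring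
    rw [h3, hodd1] at h2
    have h4 : x + 1 + 1 = x + 2 := by ring
    rw [h4] at h1
    linear_combination h1 + h2
  have h00 : Q1 0 = 0 := by
    have := hodd1 0
    rw [neg_zero] at this
    have h20 : (2 : ZMod p) ≠ 0 := by
      intro h0
      have : ((2 : ℕ) : ZMod p) = 0 := by exact_mod_cast h0
      rw [ZMod.natCast_eq_zero_iff] at this
      exact hp2 ((Nat.prime_dvd_prime_iff_eq hp.out Nat.prime_two).mp this)
    have h3 : (2 : ZMod p) * Q1 0 = 0 := by linear_combination this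
    rcases mul_eq_zero.mp h3 with h4 | h4
    · exact absurd h4 h20
    · exact h4
  have h2n : ∀ m : ℕ, Q1 (2 * m) = 0 := by
    intro m
    induction m with
    | zero => rw [Nat.cast_zero, mul_zero]; exact h00
    | succ m ih =>
      have : (2 : ZMod p) * ((m + 1 : ℕ) : ZMod p) = 2 * m + 2 := by push_cast; ring
      rw [this, hper, ih]
  have hQ1z : ∀ z, Q1 z = 0 := by
    intro z
    have h20 : (2 : ZMod p) ≠ 0 := by
      intro h0
      have : ((2 : ℕ) : ZMod p) = 0 := by exact_mod_cast h0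
      rw [ZMod.natCast_eq_zero_iff] at this
      exact hp2 ((Nat.prime_dvd_prime_iff_eq hp.out Nat.prime_two).mp this)
    have h3 := h2n (z * 2⁻¹).val
    rw [ZMod.natCast_zmod_val] at h3
    have h4 : 2 * (z * 2⁻¹) = z := by field_simp
    rwa [h4] at h3
  have hQ2z : ∀ z, Q2 z = 0 := by
    intro z
    have := hrel z
    rwa [hQ1z, zero_add] at this
  have hr1 := sparse_zero TB a g (fun s hs => (hB s hs).2.2) (by
    intro s hs t ht hst
    have hs' := mem_coe.mp hs
    have ht' := mem_coe.mp ht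
    apply hinj (mem_coe.mpr (mem_filter.mp hs').1) (mem_coe.mpr (mem_filter.mp ht').1)
    simp only [Prod.mk.injEq]
    exact ⟨by rw [(hB s hs').1, (hB t ht').1], hst⟩) hQ1z
  have hr2 := sparse_zero TC e g (fun s hs => (hC s hs).2.2) (by
    intro s hs t ht hst
    have hs' := mem_coe.mp hs
    have ht' := mem_coe.mp ht
    apply hinj (mem_coe.mpr (mem_filter.mp hs').1) (mem_coe.mpr (mem_filter.mp ht').1)
    simp only [Prod.mk.injEq]
    exact ⟨hst, by rw [(hC s hs').1, (hC t ht').1]⟩) hQ2z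
  intro s hs
  by_cases he : e s = 0
  · exact hr1 s (mem_filter.mpr ⟨hs, he⟩)
  · exact hr2 s (mem_filter.mpr ⟨hs, he⟩)

end Pool.Agent.T9h29.NR
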