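import Mathlib
import Pool.Agent.T9h29.NR.Zest3
import Pool.Agent.TH350.RC.SumReg

set_option autoImplicit false

/-! # Sums of two regular indices have many representations -/

namespace Pool.Agent.T9h29.NR

open Polynomial Finset Pool.Agent.TH350.WZ Pool.Agent.TH350.SumReg Pool.Agent.H332R2

variable {p : ℕ} [hp : Fact p.Prime]

/-- a nontrivial relation -/
def Dep (T : Finset (ℕ × ℕ)) (g : ℕ × ℕ → ZMod p) : Prop :=
  ∑ s ∈ T, C (g s) * (ph s : (ZMod p)[X]) = 0 ∧ ∃ s ∈ T, g s ≠ 0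

lemma ph_eval (s : ℕ × ℕ) (x : ZMod p) : (ph s : (ZMod p)[X]).eval x = x ^ s.1 * (x + 1) ^ s.2 := by
  unfold ph; simp

lemma ph_deg (s : ℕ × ℕ) : (ph s : (ZMod p)[X]).natDegree ≤ s.1 + s.2 := by
  unfold ph
  have h1 := natDegree_mul_le (p := (X ^ s.1 : (ZMod p)[X])) (q := (X + 1) ^ s.2)
  have h2 : (X ^ s.1 : (ZMod p)[X]).natDegree ≤ s.1 := natDegree_X_pow_le _
  have h3 : ((X + 1) ^ s.2 : (ZMod p)[X]).natDegree ≤ s.2 := by
    refine natDegree_pow_le.trans ?_
    have : (X + 1 : (ZMod p)[X]).natDegree ≤ 1 := by compute_degree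
    nlinarith
  omega

/-- extending an identity between functions from `x ≠ 0` -/
lemma ext0 (T : Finset (ℕ × ℕ)) (g : ℕ × ℕ → ZMod p) (e a : ℕ × ℕ → ℕ)
    (hd : ∀ s ∈ T, e s + a s + 1 < p)
    (h : ∀ x : ZMod p, x ≠ 0 → ∑ s ∈ T, g s * (x ^ e s * (x + 1) ^ a s) = 0) (x : ZMod p) :
    ∑ s ∈ T, g s * (x ^ e s * (x + 1) ^ a s) = 0 := by
  classical
  set P : (ZMod p)[X] := ∑ s ∈ T, C (g s) * ph (e s, a s) with hP
  have hPe : ∀ x, P.eval x = ∑ s ∈ T, g s * (x ^ e s * (x + 1) ^ a s) := by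
    intro x
    rw [hP, eval_finsetSum]
    apply sum_congr rfl
    intro s _
    rw [eval_mul, eval_C, ph_eval]
  have hXP : X * P = 0 := by
    apply poly_zero
    · rcases T.eq_empty_or_nonempty with hT | hT
      · rw [hP, hT, sum_empty, mul_zero, natDegree_zero]; exact hp.out.pos
      · obtain ⟨s0, hs0⟩ := hT
        have h0 := hd s0 hs0
        have h1 : P.natDegree ≤ p - 2 := by
          apply natDegree_sum_le_of_forall_le
          intro s hs
          refine (natDegree_C_mul_le _ _).trans ((ph_deg _).trans ?_)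
          have := hd s hs
          simp only
          omega
        have h2 := natDegree_mul_le (p := (X : (ZMod p)[X])) (q := P)
        have h3 : (X : (ZMod p)[X]).natDegree ≤ 1 := natDegree_X_le
        omega
    · intro y
      rw [eval_mul, eval_X]
      by_cases hy : y = 0
      · rw [hy, zero_mul]
      · rw [hPe, h y hy, mul_zero]
  have hP0 : P = 0 := by
    rcases mul_eq_zero.mp hXP with h1 | h1
    · exact absurd h1 X_ne_zero
    · exact h1
  rw [← hPe, hP0, eval_zero]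

/-- the three types -/
lemma types (w : ℕ) (hw : w % 2 = 0) (hwp : w + 2 < p) (T : Finset (ℕ × ℕ))
    (hT : ∀ s ∈ T, (s.1 % 2 = 1 ∧ s.2 % 2 = 1 ∧ s.1 + s.2 = w) ∨
      (s.1 = 0 ∧ s.2 % 2 = 1 ∧ s.2 < w) ∨ (s.2 = 0 ∧ s.1 % 2 = 1 ∧ s.1 < w))
    (g : ℕ × ℕ → ZMod p) (hg : Dep T g) :
    (∃ s ∈ T, s.1 + s.2 = w) ∧ (∃ s ∈ T, s.1 = 0 ∧ s.2 < w) ∧ (∃ s ∈ T, s.2 = 0 ∧ s.1 < w) := by
  classical
  obtain ⟨hrel, s0, hs0, hgs0⟩ := hg
  have hp2 : p ≠ 2 := by omega
  have hev : ∀ x : ZMod p, ∑ s ∈ T, g s * (x ^ s.1 * (x + 1) ^ s.2) = 0 := by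
    intro x
    have h1 := congrArg (fun P => P.eval x) hrel
    simp only [eval_finsetSum, eval_zero, eval_mul, eval_C, ph_eval] at h1
    exact h1
  refine ⟨?_, ?_, ?_⟩
  · by_contra hcon
    push Not at hcon
    apply hgs0
    apply parity hp2 T (fun s => s.1) (fun s => s.2) g _ _ hev s0 hs0
    · intro s hs
      rcases hT s hs with h1 | h1 | h1
      · exact absurd h1.2.2 (hcon s hs)
      · left; exact ⟨h1.1, h1.2.1, by omega⟩
      · right; exact ⟨h1.1, h1.2.1, by omega⟩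
    · intro s _ t _ hst
      simpa using hst
  · by_contra hcon
    push Not at hcon
    have hT' : ∀ s ∈ T, (s.1 % 2 = 1 ∧ s.2 % 2 = 1 ∧ s.1 + s.2 = w) ∨
        (s.2 = 0 ∧ s.1 % 2 = 1 ∧ s.1 < w) := by
      intro s hs
      rcases hT s hs with h1 | h1 | h1
      · left; exact h1
      · exact absurd h1.2.2 (by have := hcon s hs h1.1; omega)
      · right; exact h1
    apply hgs0
    apply parity hp2 T (fun s => w - s.1 - s.2) (fun s => s.2) g _ _ _ s0 hs0
    · intro s hs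
      rcases hT' s hs with h1 | h1
      · left; exact ⟨by omega, h1.2.1, by omega⟩
      · right; exact ⟨h1.1, by omega, by omega⟩
    · intro s hs t ht hst
      simp only [Prod.mk.injEq] at hst
      have h1 := hT' s hs
      have h2 := hT' t ht
      apply Prod.ext
      · omega
      · exact hst.2
    · apply ext0 T g
      · intro s hs
        rcases hT' s hs with h1 | h1 <;> omega
      · intro x hx
        have h1 := hev x⁻¹
        have h2 : ∀ s ∈ T, g s * (x ^ (w - s.1 - s.2) * (x + 1) ^ s.2) =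
            x ^ w * (g s * ((x⁻¹) ^ s.1 * (x⁻¹ + 1) ^ s.2)) := by
          intro s hs
          have hle : s.1 + s.2 ≤ w := by rcases hT' s hs with h1 | h1 <;> omega
          have e1 : x ^ w = x ^ (w - s.1 - s.2) * (x ^ s.1 * x ^ s.2) := by
            rw [← pow_add, ← pow_add]; congr 1; omega
          rw [e1]
          have e2 : x ^ s.1 * (x⁻¹) ^ s.1 = 1 := by
            rw [← mul_pow, mul_inv_cancel₀ hx, one_pow]
          have e3 : x ^ s.2 * (x⁻¹ + 1) ^ s.2 = (x + 1) ^ s.2 := by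
            rw [← mul_pow]; congr 1; rw [mul_add, mul_inv_cancel₀ hx]; ring
          rw [← e3]
          linear_combination (-(g s * x ^ (w - s.1 - s.2) * x ^ s.2 * (x⁻¹ + 1) ^ s.2)) * e2
        rw [sum_congr rfl h2, ← mul_sum, h1, mul_zero]
  · by_contra hcon
    push Not at hcon
    have hT' : ∀ s ∈ T, (s.1 % 2 = 1 ∧ s.2 % 2 = 1 ∧ s.1 + s.2 = w) ∨
        (s.1 = 0 ∧ s.2 % 2 = 1 ∧ s.2 < w) := by
      intro s hs
      rcases hT s hs with h1 | h1 | h1
      · left; exact h1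
      · right; exact h1
      · exact absurd h1.2.2 (by have := hcon s hs h1.1; omega)
    have hz : (-1 : ZMod p) ^ (s0.1 + s0.2) * g s0 = 0 := by
      apply parity hp2 T (fun s => w - s.1 - s.2) (fun s => s.1)
        (fun s => (-1) ^ (s.1 + s.2) * g s) _ _ _ s0 hs0
      · intro s hs
        rcases hT' s hs with h1 | h1
        · left; exact ⟨by omega, h1.1, by omega⟩
        · right; exact ⟨h1.1, by omega, by omega⟩
      · intro s hs t ht hst
        simp only [Prod.mk.injEq] at hst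
        have h1 := hT' s hs
        have h2 := hT' t ht
        apply Prod.ext
        · exact hst.2
        · omega
      · apply ext0 T
        · intro s hs
          rcases hT' s hs with h1 | h1 <;> omega
        · intro x hx
          have h1 := hev (-((x + 1) * x⁻¹))
          have h2 : ∀ s ∈ T, (-1) ^ (s.1 + s.2) * g s * (x ^ (w - s.1 - s.2) * (x + 1) ^ s.1) =
              x ^ w * (g s * ((-((x + 1) * x⁻¹)) ^ s.1 * (-((x + 1) * x⁻¹) + 1) ^ s.2)) := by
            intro s hs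
            have hle : s.1 + s.2 ≤ w := by rcases hT' s hs with h1 | h1 <;> omega
            have e1 : x ^ w = x ^ (w - s.1 - s.2) * (x ^ s.1 * x ^ s.2) := by
              rw [← pow_add, ← pow_add]; congr 1; omega
            rw [e1]
            have e2 : x ^ s.1 * (-((x + 1) * x⁻¹)) ^ s.1 = (-1) ^ s.1 * (x + 1) ^ s.1 := by
              rw [← mul_pow, ← mul_pow]; congr 1; field_simp
            have e3 : x ^ s.2 * (-((x + 1) * x⁻¹) + 1) ^ s.2 = (-1) ^ s.2 := by
              rw [← mul_pow]; congr 1; field_simp; ring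
            rw [pow_add]
            calc (-1) ^ s.1 * (-1) ^ s.2 * g s * (x ^ (w - s.1 - s.2) * (x + 1) ^ s.1) =
                  g s * x ^ (w - s.1 - s.2) * ((-1) ^ s.1 * (x + 1) ^ s.1) * (-1) ^ s.2 := by ring
              _ = _ := by rw [← e2, ← e3]; ring
          rw [sum_congr rfl h2, ← mul_sum, h1, mul_zero]
    rcases mul_eq_zero.mp hz with h1 | h1
    · exact pow_ne_zero _ (neg_ne_zero.mpr one_ne_zero) h1
    · exact hgs0 h1

/-- the bound for a relation between the three types -/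
theorem dep_bound (w : ℕ) (hw : w % 2 = 0) (hwp : w + 2 < p) (S : Finset (ℕ × ℕ))
    (hS : ∀ s ∈ S, (s.1 % 2 = 1 ∧ s.2 % 2 = 1 ∧ s.1 + s.2 = w) ∨
      (s.1 = 0 ∧ s.2 % 2 = 1 ∧ s.2 < w) ∨ (s.2 = 0 ∧ s.1 % 2 = 1 ∧ s.1 < w))
    (hdep : ∃ g : ℕ × ℕ → ZMod p, Dep S g) : 2 * w ≤ (#S - 1) * (#S - 2) := by
  classical
  set 𝒯 := S.powerset.filter (fun T => ∃ g : ℕ × ℕ → ZMod p, Dep T g) with h𝒯
  have hne𝒯 : 𝒯.Nonempty := ⟨S, by rw [h𝒯, mem_filter, mem_powerset]; exact ⟨Subset.refl _, hdep⟩⟩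
  obtain ⟨T, hT, hmin⟩ := exists_min_image 𝒯 card hne𝒯
  rw [h𝒯, mem_filter, mem_powerset] at hT
  obtain ⟨hTS, g, hg⟩ := hT
  have hgne : ∀ s ∈ T, g s ≠ 0 := by
    intro s hs h0
    have h1 : T.erase s ∈ 𝒯 := by
      rw [h𝒯, mem_filter, mem_powerset]
      refine ⟨(erase_subset _ _).trans hTS, g, ?_, ?_⟩
      · rw [← hg.1, ← add_sum_erase T _ hs, h0, C_0, zero_mul, zero_add]
      · obtain ⟨t, ht, hgt⟩ := hg.2
        exact ⟨t, mem_erase.mpr ⟨fun h => hgt (h ▸ h0), ht⟩, hgt⟩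
    have h2 := hmin _ h1
    have h3 := card_erase_lt_of_mem hs
    omega
  obtain ⟨⟨sA, hsA, hA⟩, ⟨sB, hsB, hB⟩, ⟨sC, hsC, hC⟩⟩ := types w hw hwp T
    (fun s hs => hS s (hTS hs)) g hg
  have hAB : sB ≠ sA := by rintro rfl; omega
  have hAC : sC ≠ sA := by rintro rfl; omega
  set b := T.erase sA with hb
  have hli : LinearIndependent (ZMod p) (fun s : b => (ph (s : ℕ × ℕ) : (ZMod p)[X])) := by
    rw [Fintype.linearIndependent_iff]
    intro c hc i
    by_contra hci
    set c' : ℕ × ℕ → ZMod p := fun s => if hs : s ∈ b then c ⟨s, hs⟩ else 0 with hc'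
    have h1 : b ∈ 𝒯 := by
      rw [h𝒯, mem_filter, mem_powerset]
      refine ⟨(erase_subset _ _).trans hTS, c', ?_, i, i.2, ?_⟩
      · rw [← hc, ← sum_coe_sort b]
        apply sum_congr rfl
        intro s _
        rw [smul_eq_C_mul]
        congr 2
        simp only [hc']
        rw [dif_pos s.2]
      · simp only [hc']
        rw [dif_pos i.2]
        exact hci
    have h2 := hmin _ h1
    have h3 := card_erase_lt_of_mem hsA
    rw [← hb] at h3
    omega
  let en : Fin #b ≃ b := b.equivFin.symm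
  set s : Fin #b → ℕ × ℕ := fun j => (en j : ℕ × ℕ) with hs
  set cc : Fin #b → ZMod p := fun j => -(g (s j) * (g sA)⁻¹) with hcc
  have hgA := hgne sA hsA
  have hsum : ∑ j, C (cc j) * (ph (s j) : (ZMod p)[X]) = ph sA := by
    have h1 : ∑ j, C (cc j) * (ph (s j) : (ZMod p)[X]) =
        ∑ t ∈ b, C (-(g t * (g sA)⁻¹)) * (ph t : (ZMod p)[X]) := by
      rw [← sum_coe_sort b, ← Equiv.sum_comp en]
    rw [h1]
    have h2 := hg.1
    rw [← add_sum_erase T _ hsA, ← hb] at h2
    have h3 : ∑ t ∈ b, C (-(g t * (g sA)⁻¹)) * (ph t : (ZMod p)[X]) =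
        -(C ((g sA)⁻¹) * ∑ t ∈ b, C (g t) * ph t) := by
      rw [mul_sum, ← sum_neg_distrib]
      apply sum_congr rfl
      intro t _
      rw [C_neg, C_mul]; ring
    rw [h3]
    have h4 : C ((g sA)⁻¹) * C (g sA) = (1 : (ZMod p)[X]) := by
      rw [← C_mul, inv_mul_cancel₀ hgA, C_1]
    linear_combination (-C ((g sA)⁻¹)) * h2 + (ph sA) * h4
  have hsT : ∀ j, s j ∈ T := fun j => (mem_erase.mp (en j).2).2
  have hj : ∀ t ∈ T, t ≠ sA → ∃ j, s j = t ∧ cc j ≠ 0 := by
    intro t ht hne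
    have htb : t ∈ b := mem_erase.mpr ⟨hne, ht⟩
    refine ⟨en.symm ⟨t, htb⟩, ?_, ?_⟩
    · simp only [hs]; rw [Equiv.apply_symm_apply]
    · simp only [hcc, hs]
      rw [Equiv.apply_symm_apply]
      exact neg_ne_zero.mpr (mul_ne_zero (hgne t ht) (inv_ne_zero hgA))
  obtain ⟨j0, hj0, hcj0⟩ := hj sB hsB hAB
  obtain ⟨j1, hj1, hcj1⟩ := hj sC hsC hAC
  have hz := zest2_li p #b s (fun j => by
      rcases hS _ (hTS (hsT j)) with h1 | h1 | h1 <;> omega)
    (by
      have h1 := hli.comp en en.injective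
      exact h1) cc sA.1 sA.2 (by
      rw [hsum]; unfold ph; exact dvd_mul_right _ _) (by
      rw [hsum]; unfold ph; exact dvd_mul_left _ _) j0 j1 hcj0 (by rw [hj0]; exact hB.1) hcj1
      (by rw [hj1]; exact hC.1)
  rw [hA] at hz
  have h1 : #b = #T - 1 := card_erase_of_mem hsA
  have h2 := card_le_card hTS
  rw [h1] at hz
  refine hz.trans ?_
  have h3 : #T - 1 ≤ #S - 1 := by omega
  have h4 : #T - 1 - 1 ≤ #S - 2 := by omega
  exact Nat.mul_le_mul h3 h4

end Pool.Agent.T9h29.NR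

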