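import Mathlib
import Pool.Agent.T9h29.NR.Irr

set_option autoImplicit false

/-! # Sums of two regular indices have many representations -/

namespace Pool.Agent.T9h29.NR

open Polynomial Finset Pool.Agent.TH350.WZ Pool.Agent.TH350.SumReg Pool.Agent.H332R2

variable {p : ℕ} [hp : Fact p.Prime]

/-- the representations -/
noncomputable def Rk (p k : ℕ) : Finset ℕ :=
  (Ioo 0 k).filter (fun i : ℕ => ¬ ((p : ℤ) ∣ (_root_.bernoulli (2 * i)).num) ∧
      ¬ ((p : ℤ) ∣ (_root_.bernoulli (2 * (k - i))).num))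

theorem pairs_irr (k : ℕ) (hk : 2 ≤ k) (hkp : 2 * k + 3 ≤ p)
    (hirr : (p : ℤ) ∣ (_root_.bernoulli (2 * k)).num) (hne : (Rk p k).Nonempty) :
    4 * k ≤ 9 * (#(Rk p k) * (#(Rk p k) + 1)) := by
  classical
  set I := Rk p k with hI
  have hccb : ∀ m, 2 * m + 3 ≤ p → (cc p (2 * m) = 0 ↔ (p : ℤ) ∣ (_root_.bernoulli (2 * m)).num) :=
    fun m hm => cc_eq_zero_iff (by omega) (by omega)
  have hck : cc p (2 * k) = 0 := (hccb k hkp).2 hirr
  have hIk : ∀ i ∈ I, 0 < i ∧ i < k := by
    intro i hi
    rw [hI, Rk, mem_filter, mem_Ioo] at hi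
    exact hi.1
  have hwI : ∀ i ∈ I, ww p k i ≠ 0 := by
    intro i hi
    have h1 := hIk i hi
    rw [hI, Rk, mem_filter] at hi
    unfold ww
    apply mul_ne_zero
    · intro h; exact hi.2.1 ((hccb i (by omega)).1 h)
    · intro h; exact hi.2.2 ((hccb (k - i) (by omega)).1 h)
  have hw0 : ∀ i ∈ range (k + 1), i ∉ I → ww p k i = 0 := by
    intro i hi hiI
    rw [mem_range] at hi
    unfold ww
    by_cases h0 : i = 0
    · rw [h0, Nat.sub_zero, hck, mul_zero]
    by_cases h1 : i = k
    · rw [h1, hck, zero_mul]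
    by_contra hcon
    apply hiI
    rw [hI, Rk, mem_filter, mem_Ioo]
    refine ⟨⟨by omega, by omega⟩, ?_, ?_⟩
    · intro h; exact left_ne_zero_of_mul hcon ((hccb i (by omega)).2 h)
    · intro h; exact right_ne_zero_of_mul hcon ((hccb (k - i) (by omega)).2 h)
  have hid := identity_poly (p := p) k hk hkp
  have hsub : I ⊆ range (k + 1) := by
    intro i hi
    have := hIk i hi
    rw [mem_range]; omega
  rw [← sum_subset hsub (fun i hi hiI => by rw [hw0 i hi hiI, C_0, zero_mul])] at hid
  have hfac : ∀ i ∈ I, C (ww p k i) * (((X : (ZMod p)[X]) + 1) ^ (2 * i) * (X ^ (2 * (k - i)) + X) -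
      (X + 1) * X ^ (2 * i)) = X * (X + 1) * (C (ww p k i) * (ph (2 * (k - i) - 1, 2 * i - 1) +
        ph (0, 2 * i - 1) - ph (2 * i - 1, 0))) := by
    intro i hi
    have h1 := hIk i hi
    unfold ph
    simp only [pow_zero, one_mul, mul_one]
    have e1 : (X : (ZMod p)[X]) ^ (2 * (k - i)) = X ^ (2 * (k - i) - 1) * X := by
      rw [← pow_succ]; congr 1; omega
    have e2 : (X : (ZMod p)[X]) ^ (2 * i) = X ^ (2 * i - 1) * X := by
      rw [← pow_succ]; congr 1; omega
    have e3 : ((X : (ZMod p)[X]) + 1) ^ (2 * i) = (X + 1) ^ (2 * i - 1) * (X + 1) := by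
      rw [← pow_succ]; congr 1; omega
    rw [e1, e2, e3]
    ring
  rw [sum_congr rfl hfac, ← mul_sum] at hid
  have hXX : (X * (X + 1) : (ZMod p)[X]) ≠ 0 := by
    apply mul_ne_zero X_ne_zero
    have e : (X + 1 : (ZMod p)[X]) = X + C 1 := by simp
    rw [e]; exact X_add_C_ne_zero 1
  have hrel : ∑ i ∈ I, (C (ww p k i) * ((ph (2 * (k - i) - 1, 2 * i - 1) : (ZMod p)[X]) +
        ph (0, 2 * i - 1) - ph (2 * i - 1, 0))) = 0 := by
    rcases mul_eq_zero.mp hid with h | h
    · exact absurd h hXX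
    · exact h
  set SA : Finset (ℕ × ℕ) := I.image (fun i => (2 * (k - i) - 1, 2 * i - 1)) with hSA
  set SB : Finset (ℕ × ℕ) := I.image (fun i => (0, 2 * i - 1)) with hSB
  set SC : Finset (ℕ × ℕ) := I.image (fun i => (2 * i - 1, 0)) with hSC
  have hAinj : Set.InjOn (fun i => ((2 * (k - i) - 1, 2 * i - 1) : ℕ × ℕ)) I := by
    intro i hi j hj hij
    have h1 := hIk i hi
    have h2 := hIk j hj
    simp only [Prod.mk.injEq] at hij
    omega
  have hBinj : Set.InjOn (fun i => ((0, 2 * i - 1) : ℕ × ℕ)) I := by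
    intro i hi j hj hij
    have h1 := hIk i hi
    have h2 := hIk j hj
    simp only [Prod.mk.injEq, true_and] at hij
    omega
  have hCinj : Set.InjOn (fun i => ((2 * i - 1, 0) : ℕ × ℕ)) I := by
    intro i hi j hj hij
    have h1 := hIk i hi
    have h2 := hIk j hj
    simp only [Prod.mk.injEq, and_true] at hij
    omega
  have hd1 : Disjoint SA SB := by
    rw [disjoint_left]
    intro s hs hs'
    rw [hSA, mem_image] at hs
    rw [hSB, mem_image] at hs'
    obtain ⟨i, hi, rfl⟩ := hs
    obtain ⟨j, hj, hij⟩ := hs'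
    have h1 := hIk i hi
    simp only [Prod.mk.injEq] at hij
    omega
  have hd2 : Disjoint (SA ∪ SB) SC := by
    rw [disjoint_left]
    intro s hs hs'
    rw [hSC, mem_image] at hs'
    obtain ⟨j, hj, rfl⟩ := hs'
    rw [mem_union, hSA, hSB, mem_image, mem_image] at hs
    rcases hs with ⟨i, hi, hij⟩ | ⟨i, hi, hij⟩
    · have h1 := hIk i hi
      simp only [Prod.mk.injEq] at hij
      omega
    · have h1 := hIk i hi
      simp only [Prod.mk.injEq] at hij
      omega
  set g : ℕ × ℕ → ZMod p := fun s => if s.2 = 0 then -ww p k ((s.1 + 1) / 2) else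
    ww p k ((s.2 + 1) / 2) with hg
  have hdep : Dep (SA ∪ SB ∪ SC) g := by
    constructor
    · rw [sum_union hd2, sum_union hd1, hSA, hSB, hSC, sum_image hAinj, sum_image hBinj,
        sum_image hCinj, ← hrel, ← sum_add_distrib, ← sum_add_distrib]
      apply sum_congr rfl
      intro i hi
      have h1 := hIk i hi
      have g1 : g (2 * (k - i) - 1, 2 * i - 1) = ww p k i := by
        simp only [hg]
        rw [if_neg (by omega)]
        congr 1; omega
      have g2 : g (0, 2 * i - 1) = ww p k i := by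
        simp only [hg]
        rw [if_neg (by omega)]
        congr 1; omega
      have g3 : g (2 * i - 1, 0) = -ww p k i := by
        simp only [hg, if_true]
        congr 2; omega
      rw [g1, g2, g3, C_neg]
      ring
    · obtain ⟨i, hi⟩ := hne
      have h1 := hIk i hi
      refine ⟨(0, 2 * i - 1), ?_, ?_⟩
      · rw [mem_union, mem_union, hSB]
        exact Or.inl (Or.inr (mem_image_of_mem _ hi))
      · simp only [hg]
        rw [if_neg (by omega)]
        have : (2 * i - 1 + 1) / 2 = i := by omega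
        rw [this]
        exact hwI i hi
  have hb := dep_bound (p := p) (2 * k - 2) (by omega) (by omega) (SA ∪ SB ∪ SC) ?_ ⟨g, hdep⟩
  · have hcard : #(SA ∪ SB ∪ SC) ≤ 3 * #I := by
      have e1 := card_union_le (SA ∪ SB) SC
      have e2 := card_union_le SA SB
      have e3 : #SA ≤ #I := card_image_le
      have e4 : #SB ≤ #I := card_image_le
      have e5 : #SC ≤ #I := card_image_le
      omega
    have ht : 1 ≤ #I := card_pos.mpr hne
    have h1 := hb.trans (Nat.mul_le_mul (Nat.sub_le_sub_right hcard 1)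
      (Nat.sub_le_sub_right hcard 2))
    obtain ⟨t, ht'⟩ : ∃ t, #I = t + 1 := ⟨#I - 1, by omega⟩
    rw [ht'] at h1 ⊢
    have e1 : 3 * (t + 1) - 1 = 3 * t + 2 := by omega
    have e2 : 3 * (t + 1) - 2 = 3 * t + 1 := by omega
    rw [e1, e2] at h1
    have h3 : (3 * t + 2) * (3 * t + 1) = 9 * (t * t) + 9 * t + 2 := by ring
    have h4 : 9 * ((t + 1) * (t + 1 + 1)) = 9 * (t * t) + 27 * t + 18 := by ring
    omega
  · intro s hs
    rw [mem_union, mem_union, hSA, hSB, hSC, mem_image, mem_image, mem_image] at hs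
    rcases hs with (⟨i, hi, rfl⟩ | ⟨i, hi, rfl⟩) | ⟨i, hi, rfl⟩
    · have h1 := hIk i hi
      left
      simp only
      refine ⟨by omega, by omega, by omega⟩
    · have h1 := hIk i hi
      right; left
      simp only
      refine ⟨trivial, by omega, by omega⟩
    · have h1 := hIk i hi
      right; right
      simp only
      refine ⟨trivial, by omega, by omega⟩

/-- the number of representations of a sum of two regular indices -/
theorem pairs (k : ℕ) (hk : 2 ≤ k) (hkp : 2 * k + 3 ≤ p) (hne : (Rk p k).Nonempty) :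
    4 * k ≤ 9 * (#(Rk p k) * (#(Rk p k) + 1)) := by
  by_cases hirr : (p : ℤ) ∣ (_root_.bernoulli (2 * k)).num
  · exact pairs_irr k hk hkp hirr hne
  · apply Pool.Agent.TH350.SumReg.main (p := p) k hk hkp hirr
    · intro i h1 h2 h3 h4
      rw [Rk, mem_filter, mem_Ioo]
      exact ⟨⟨h1, h2⟩, h3, h4⟩
    · intro i hi
      rw [Rk, mem_filter, mem_Ioo] at hi
      exact hi.1

end Pool.Agent.T9h29.NR
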