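import Mathlib
import Pool.Agent.T9h29.NR.Pairs
import Pool.Agent.H332R2.Window
import Pool.Agent.TH350.RC.Main

set_option autoImplicit false

/-! # Counting the regular indices -/

namespace Pool.Agent.T9h29.NR

open Finset

/-- the regular indices up to `K` -/
noncomputable def Reg (p K : ℕ) : Finset ℕ :=
  (Icc 1 K).filter (fun m : ℕ => ¬ ((p : ℤ) ∣ (_root_.bernoulli (2 * m)).num))

theorem mem_Reg {p K m : ℕ} :
    m ∈ Reg p K ↔ (1 ≤ m ∧ m ≤ K) ∧ ¬ ((p : ℤ) ∣ (_root_.bernoulli (2 * m)).num) := by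
  unfold Reg; rw [mem_filter, mem_Icc]

theorem reg_one (p : ℕ) (hp : p.Prime) : ¬ ((p : ℤ) ∣ (_root_.bernoulli (2 * 1)).num) := by
  have h2 : _root_.bernoulli (2 * 1) = 6⁻¹ := bernoulli_two
  rw [h2]
  have h3 : ((6 : ℚ)⁻¹).num = 1 := by norm_num
  rw [h3]
  intro h
  have := Int.le_of_dvd (by norm_num) h
  have := hp.two_le
  omega

theorem gap (p : ℕ) (hp : p.Prime) (a r : ℕ) (hr : 1 ≤ r)
    (ha : 2 * a ≤ (r + 1) * (2 * r + 1)) (hpr : 2 * (a + r) + 3 ≤ p) :
    ∃ m : ℕ, a < m ∧ m ≤ a + r ∧ ¬ ((p : ℤ) ∣ (_root_.bernoulli (2 * m)).num) := by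
  have : Fact p.Prime := ⟨hp⟩
  rcases Nat.eq_zero_or_pos a with h0 | h0
  · exact ⟨1, by omega, by omega, reg_one p hp⟩
  · by_contra hcon
    push Not at hcon
    refine Pool.Agent.H332R2.no_window (p := p) (2 * a) r (r + 1) (by omega) (by omega) (by nlinarith)
      (by omega) (by omega) ?_
    intro k hk1 hk2
    rcases Nat.even_or_odd' k with ⟨m, hm | hm⟩
    · subst hm
      rw [Pool.Agent.H332R2.cc_eq_zero_iff (by omega) (by omega)]
      exact hcon m (by omega) (by omega)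
    · have hb : _root_.bernoulli k = 0 := bernoulli_eq_zero_of_odd ⟨m, hm⟩ (by omega)
      unfold Pool.Agent.H332R2.cc
      rw [hb]
      simp

theorem base (p : ℕ) (hp : p.Prime) (K : ℕ) (hK : 2 * K + 3 ≤ p) :
    K < (#(Reg p K) + 2) ^ 2 := by
  have h := Pool.Agent.TH350.RC.main p 1 hp le_rfl (by simpa using hp.one_lt) 0 K hK
  have e : ((Icc 1 K).filter (fun m : ℕ => (m : ℤ) ≡ 0 [ZMOD (1 : ℕ)] ∧
      ¬ ((p : ℤ) ∣ (_root_.bernoulli (2 * m)).num))) = Reg p K := by
    unfold Reg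
    apply filter_congr
    intro m _
    constructor
    · exact fun h => h.2
    · intro h
      refine ⟨?_, h⟩
      simp [Int.ModEq, Int.emod_one]
  rw [e] at h
  simpa using h

theorem step (p : ℕ) (hp : p.Prime) (K L J ρ : ℕ) (hK : 2 * K + 3 ≤ p) (hL : 1 ≤ L)
    (hKL : 2 * K ≤ (L + 1) * (2 * L + 1)) (hJ : 4 * (L * J) ≤ K) (hρ : 9 * ((ρ - 1) * ρ) < 2 * K) :
    J * #(Reg p L) * ρ ≤ #(Reg p K) ^ 2 := by
  classical
  have : Fact p.Prime := ⟨hp⟩
  have hLj : ∀ j, j < J → 4 * (L * (j + 1)) ≤ K := by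
    intro j hj
    have : L * (j + 1) ≤ L * J := Nat.mul_le_mul_left _ hj
    omega
  have hex : ∀ j, ∃ m, j < J → (K - 2 * (L * (j + 1)) < m ∧ m ≤ K - 2 * (L * (j + 1)) + L ∧
      ¬ ((p : ℤ) ∣ (_root_.bernoulli (2 * m)).num)) := by
    intro j
    by_cases hj : j < J
    · have h1 := hLj j hj
      have h2 : L ≤ L * (j + 1) := Nat.le_mul_of_pos_right _ (by omega)
      obtain ⟨m, hm⟩ := gap p hp (K - 2 * (L * (j + 1))) L hL (by omega) (by omega)
      exact ⟨m, fun _ => hm⟩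
    · exact ⟨0, fun h => absurd h hj⟩
  choose a ha using hex
  set S : Finset ℕ := (range J ×ˢ Reg p L).image (fun x => a x.1 + x.2) with hS
  have hinj : Set.InjOn (fun x : ℕ × ℕ => a x.1 + x.2) (range J ×ˢ Reg p L : Finset (ℕ × ℕ)) := by
    rintro ⟨j, l⟩ hx ⟨j', l'⟩ hx' he
    simp only [coe_product, Set.mem_prod, mem_coe, mem_range, mem_Reg] at hx hx'
    simp only at he
    have key : ∀ j j' l l', j < J → j' < J → 1 ≤ l → l ≤ L → 1 ≤ l' → l' ≤ L →
        a j + l = a j' + l' → ¬ (j < j') := by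
      intro j j' l l' hj hj' hl1 hl2 hl'1 hl'2 he hlt
      have h1 := ha j hj
      have h2 := ha j' hj'
      have h3 := hLj j hj
      have h4 := hLj j' hj'
      have h5 : L * (j + 1) + L ≤ L * (j' + 1) := by
        have : L * (j + 1 + 1) ≤ L * (j' + 1) := Nat.mul_le_mul_left _ (by omega)
        linarith [this, Nat.mul_succ L (j + 1)]
      omega
    have e1 := key j j' l l' hx.1 hx'.1 hx.2.1.1 hx.2.1.2 hx'.2.1.1 hx'.2.1.2 he
    have e2 := key j' j l' l hx'.1 hx.1 hx'.2.1.1 hx'.2.1.2 hx.2.1.1 hx.2.1.2 he.symm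
    have e3 : j = j' := by omega
    subst e3
    have e4 : l = l' := by omega
    rw [e4]
  have hScard : #S = J * #(Reg p L) := by
    rw [hS, card_image_of_injOn hinj, card_product, card_range]
  have hSm : ∀ m ∈ S, ρ ≤ #(Rk p m) ∧ m ≤ K := by
    intro m hm
    rw [hS, mem_image] at hm
    obtain ⟨⟨j, l⟩, hx, rfl⟩ := hm
    rw [mem_product, mem_range, mem_Reg] at hx
    simp only at hx ⊢
    have h1 := ha j hx.1
    have h3 := hLj j hx.1
    have h6 : L ≤ L * (j + 1) := Nat.le_mul_of_pos_right _ (by omega)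
    have hmK : a j + l ≤ K := by omega
    refine ⟨?_, hmK⟩
    have hne : (Rk p (a j + l)).Nonempty := by
      refine ⟨l, ?_⟩
      rw [Rk, mem_filter, mem_Ioo]
      refine ⟨⟨by omega, by omega⟩, hx.2.2, ?_⟩
      rw [Nat.add_sub_cancel]
      exact h1.2.2
    have h4 := pairs (p := p) (a j + l) (by omega) (by omega) hne
    by_contra hcon
    push Not at hcon
    have h5 : #(Rk p (a j + l)) * (#(Rk p (a j + l)) + 1) ≤ (ρ - 1) * ρ :=
      Nat.mul_le_mul (by omega) (by omega)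
    have h7 : K < 2 * (a j + l) := by omega
    omega
  -- count
  set P : Finset (ℕ × ℕ) := Reg p K ×ˢ Reg p K with hP
  have hPc : #P = #(Reg p K) ^ 2 := by rw [hP, card_product, sq]
  have hfib : ∀ m ∈ S, ρ ≤ #(P.filter (fun x => x.1 + x.2 = m)) := by
    intro m hm
    obtain ⟨h1, h2⟩ := hSm m hm
    refine h1.trans ?_
    apply card_le_card_of_injOn (fun i => (i, m - i))
    · intro i hi
      rw [mem_coe, Rk, mem_filter, mem_Ioo] at hi
      simp only [mem_coe, mem_filter, hP, mem_product, mem_Reg]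
      refine ⟨⟨⟨⟨by omega, by omega⟩, hi.2.1⟩, ⟨⟨by omega, by omega⟩, hi.2.2⟩⟩, by omega⟩
    · intro i _ i' _ he
      exact (Prod.mk.inj he).1
  calc J * #(Reg p L) * ρ = #S * ρ := by rw [hScard]
    _ = ∑ _m ∈ S, ρ := by rw [sum_const, smul_eq_mul]
    _ ≤ ∑ m ∈ S, #(P.filter (fun x => x.1 + x.2 = m)) := sum_le_sum hfib
    _ = #(P.filter (fun x => x.1 + x.2 ∈ S)) := by
        rw [card_eq_sum_card_fiberwise (f := fun x : ℕ × ℕ => x.1 + x.2) (t := S)
          (s := P.filter (fun x => x.1 + x.2 ∈ S))]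
        · apply sum_congr rfl
          intro m hm
          congr 1
          ext x
          simp only [mem_filter]
          constructor
          · rintro ⟨h1, h2⟩; exact ⟨⟨h1, by rw [h2]; exact hm⟩, h2⟩
          · rintro ⟨⟨h1, _⟩, h2⟩; exact ⟨h1, h2⟩
        · intro x hx
          rw [mem_coe, mem_filter] at hx
          exact hx.2
    _ ≤ #P := card_filter_le _ _
    _ = #(Reg p K) ^ 2 := hPc

end Pool.Agent.T9h29.NR
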