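import Mathlib
import Pool.Agent.T9h29.NR.Comb

set_option autoImplicit false

/-! # The lower bound `K^(2/3) / 10` -/

namespace Pool.Agent.T9h29.NR

open Finset

theorem small_aux (N : ℕ) (h1 : 1 ≤ N) (h2 : N ≤ 290) : (N + 2) ^ 4 ≤ 1000 * N ^ 3 := by
  rcases Nat.lt_or_ge N 4 with h | h
  · interval_cases N <;> norm_num
  · have h3 : 2 * (N + 2) ≤ 3 * N := by omega
    have h4 : (2 * (N + 2)) ^ 3 ≤ (3 * N) ^ 3 := Nat.pow_le_pow_left h3 3
    have h5 : (N + 2) * (2 * (N + 2)) ^ 3 ≤ 292 * (3 * N) ^ 3 := Nat.mul_le_mul (by omega) h4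
    have e1 : (N + 2) * (2 * (N + 2)) ^ 3 = 8 * (N + 2) ^ 4 := by ring
    have e2 : 292 * (3 * N) ^ 3 = 7884 * N ^ 3 := by ring
    rw [e1, e2] at h5
    omega

theorem count (p : ℕ) (hp : p.Prime) (K : ℕ) (hK : 2 * K + 3 ≤ p) :
    K ^ 2 ≤ 1000 * #(Reg p K) ^ 3 := by
  induction K using Nat.strong_induction_on with
  | _ K ih =>
  by_contra hcon
  push Not at hcon
  set N := #(Reg p K) with hN
  have hK0 : 1 ≤ K := by
    by_contra h
    have : K = 0 := by omega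
    subst this
    simp at hcon
  have hN1 : 1 ≤ N := by
    rw [hN, Nat.one_le_iff_ne_zero]
    apply card_ne_zero_of_mem (a := 1)
    rw [mem_Reg]
    exact ⟨⟨le_rfl, hK0⟩, reg_one p hp⟩
  have hb := base p hp K hK
  rw [← hN] at hb
  have hN2 : 291 ≤ N := by
    by_contra h
    have h1 := small_aux N hN1 (by omega)
    have h2 : K ^ 2 < ((N + 2) ^ 2) ^ 2 := Nat.pow_lt_pow_left hb (by norm_num)
    have e : ((N + 2) ^ 2) ^ 2 = (N + 2) ^ 4 := by ring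
    omega
  have hK1 : 156000 ≤ K := by
    by_contra h
    have h1 : K ^ 2 ≤ 156000 ^ 2 := Nat.pow_le_pow_left (by omega) 2
    have h2 : 291 ^ 3 ≤ N ^ 3 := Nat.pow_le_pow_left hN2 3
    norm_num at h1 h2
    omega
  -- the length
  set L := Nat.sqrt K + 1 with hL
  have hL1 : K < L ^ 2 := Nat.lt_succ_sqrt' K
  have hL2 : (L - 1) ^ 2 ≤ K := by
    rw [hL, Nat.add_sub_cancel]; exact Nat.sqrt_le' K
  have hL3 : 395 ≤ L := by
    by_contra h
    have : L ^ 2 ≤ 394 ^ 2 := Nat.pow_le_pow_left (by omega) 2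
    norm_num at this
    omega
  obtain ⟨l, hl⟩ : ∃ l, L = l + 1 := ⟨L - 1, by omega⟩
  rw [hl, Nat.add_sub_cancel] at hL2
  have hLK : L < K := by nlinarith
  have hM := ih L hLK (by omega)
  set M := #(Reg p L) with hMdef
  set J := K / (4 * L) with hJ
  set ρ := Nat.sqrt (2 * K / 9) with hρ
  have hJ1 : 4 * (L * J) ≤ K := by
    have := Nat.mul_div_le K (4 * L)
    rw [← hJ, mul_assoc] at this
    exact this
  have hJ2 : K < 4 * L * (J + 1) := by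
    have := Nat.lt_mul_div_succ K (b := 4 * L) (by omega)
    rw [← hJ] at this
    exact this
  have hρ1 : 9 * (ρ * ρ) ≤ 2 * K := by
    have := Nat.sqrt_le (2 * K / 9)
    rw [← hρ] at this
    omega
  have hρ2 : 2 * K < 9 * ((ρ + 1) * (ρ + 1)) := by
    have := Nat.lt_succ_sqrt (2 * K / 9)
    rw [← hρ, Nat.succ_eq_add_one] at this
    omega
  have hρ0 : 1 ≤ ρ := by
    by_contra h
    have : ρ = 0 := by omega
    rw [this] at hρ2
    omega
  have hρ3 : 9 * ((ρ - 1) * ρ) < 2 * K := by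
    have : (ρ - 1) * ρ < ρ * ρ := Nat.mul_lt_mul_of_pos_right (by omega) (by omega)
    omega
  have hst := step p hp K L J ρ hK (by omega) (by nlinarith) hJ1 hρ3
  rw [← hN, ← hMdef] at hst
  -- lower bounds for J and ρ
  have hJ3 : 246 * L ≤ 1000 * J := by
    by_contra h
    push Not at h
    rw [hl] at h hJ2
    nlinarith
  have hρ4 : 467 * L ≤ 1000 * ρ := by
    by_contra h
    push Not at h
    rw [hl] at h
    nlinarith
  have h1 : (J * M * ρ) ^ 3 ≤ (N ^ 2) ^ 3 := Nat.pow_le_pow_left hst 3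
  have h2 : (246 * L) ^ 3 ≤ (1000 * J) ^ 3 := Nat.pow_le_pow_left hJ3 3
  have h3 : (467 * L) ^ 3 ≤ (1000 * ρ) ^ 3 := Nat.pow_le_pow_left hρ4 3
  have h4 : (246 * L) ^ 3 * (467 * L) ^ 3 * L ^ 2 ≤ (1000 * J) ^ 3 * (1000 * ρ) ^ 3 * (1000 * M ^ 3) :=
    Nat.mul_le_mul (Nat.mul_le_mul h2 h3) hM
  have e1 : (246 * L) ^ 3 * (467 * L) ^ 3 * L ^ 2 = 1516198152136968 * L ^ 8 := by ring
  have e2 : (1000 * J) ^ 3 * (1000 * ρ) ^ 3 * (1000 * M ^ 3) = 10 ^ 21 * (J * M * ρ) ^ 3 := by ring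
  rw [e1, e2] at h4
  have h5 : (1000 * N ^ 3) ^ 2 < ((L ^ 2) ^ 2) ^ 2 := by
    apply Nat.pow_lt_pow_left _ (by norm_num)
    exact hcon.trans (Nat.pow_lt_pow_left hL1 (by norm_num))
  have e3 : (1000 * N ^ 3) ^ 2 = 10 ^ 6 * N ^ 6 := by ring
  have e4 : ((L ^ 2) ^ 2) ^ 2 = L ^ 8 := by ring
  have e5 : (N ^ 2) ^ 3 = N ^ 6 := by ring
  rw [e3, e4] at h5
  rw [e5] at h1
  norm_num at h4 h5
  omega

end Pool.Agent.T9h29.NR
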